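import Pool.Agent.W564.SC.Defs

/-!
# Project SC, part D: chain recurrent points of `f × id` on `M × 𝕋ᵏ`, `k > r dim M`
-/

open scoped Manifold ContDiff Topology
open Filter Set Metric

universe u

namespace Pool.Agent.W564.SC

open Pool.Agent.H718R2.G

/-- `z` is chain recurrent for `F`: for every neighbourhood `W` of the diagonal there is a closed
`W`-chain through `z`. -/
def ChainRec {X : Type*} [TopologicalSpace X] (F : X → X) (z : X) : Prop :=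
  ∀ W : Set (X × X), IsOpen W → (∀ y, (y, y) ∈ W) → ∃ (m : ℕ) (c : ℕ → X), 1 ≤ m ∧ c 0 = z ∧
    c m = z ∧ ∀ i < m, (F (c i), c (i + 1)) ∈ W

/-- `Θ` is near every point equal to a small push in one of the charts `χs b`. -/
def IsMulti (n : ℕ) (N : Type*) [TopologicalSpace N] [ChartedSpace (V n) N] (r : ℕ∞) (A : ℕ)
    (χs : Fin A → OpenPartialHomeomorph N (V n)) (k : ℕ) (κ : ℝ) (Θ : DiffM n N r) : Prop :=
  ∀ y : N, ∃ (b : Fin A) (u : V n → V n) (Θ' : DiffM n N r), Small n k κ u ∧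
    IsPush n N r (χs b) u Θ' ∧ (Θ : N → N) =ᶠ[𝓝 y] (Θ' : N → N)

/-- NBM: as `S_NBHD`, for maps which are locally small pushes in finitely many charts. -/
def S_NBM : Prop :=
  ∀ (n : ℕ) (N : Type u) [TopologicalSpace N] [T2Space N] [CompactSpace N]
    [ChartedSpace (V n) N] [IsManifold (𝓡 n) ∞ N] (r : ℕ∞), 1 ≤ r →
    ∀ (P : Type) [NormedAddCommGroup P]
    [NormedSpace ℝ P] (H : P → DiffM n N r), IsFam n N r H →
    ∀ (A : ℕ) (χs : Fin A → OpenPartialHomeomorph N (V n)) (zs : Fin A → N),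
    (∀ b, GoodChart n N (χs b) (zs b)) →
    ∀ U : Set (DiffM n N r), IsOpen[strongTop n N r] U → H 0 ∈ U →
    ∃ k : ℕ, 1 ≤ k ∧ (k : ℕ∞) ≤ r ∧ ∃ κ : ℝ, 0 < κ ∧
      ∀ (s : P) (Θ : DiffM n N r), ‖s‖ < κ → IsMulti n N r A χs k κ Θ → (H s).trans Θ ∈ U

/-- MB: many simultaneous pushes with disjoint supports. -/
def S_MB : Prop :=
  ∀ (n : ℕ) (N : Type u) [TopologicalSpace N] [T2Space N] [CompactSpace N]
    [ChartedSpace (V n) N] [IsManifold (𝓡 n) ∞ N] (r : ℕ∞) (A : ℕ)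
    (χs : Fin A → OpenPartialHomeomorph N (V n)) (zs : Fin A → N),
    (∀ b, GoodChart n N (χs b) (zs b)) → 1 ≤ A → ∀ k : ℕ, 1 ≤ k →
    ∃ C : ℝ, 0 < C ∧ ∀ (ρ κ : ℝ), 0 < ρ → ρ ≤ 1 / 16 → C * κ ≤ 1 → 0 ≤ κ →
      ∀ (m : ℕ) (b : ℕ → Fin A) (q w : ℕ → V n), (∀ i < m, ‖q i‖ ≤ 1 / 4) →
      (∀ i < m, ‖w i‖ ≤ κ * ρ ^ k) →
      (∀ i < m, ∀ j < m, i ≠ j → Disjoint ((χs (b i)).symm '' closedBall (q i) (2 * ρ))
        ((χs (b j)).symm '' closedBall (q j) (2 * ρ))) →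
      ∃ Θ : DiffM n N r, IsMulti n N r A χs k (C * κ) Θ ∧
        ∀ i < m, Θ ((χs (b i)).symm (q i + w i)) = (χs (b i)).symm (q i)

/-- ALPHA: torus rotations of order `m` with well separated orbits. -/
def S_ALPHA : Prop :=
  ∀ k : ℕ, 1 ≤ k → ∃ C : ℝ, 1 ≤ C ∧ ∀ m : ℕ, 1 ≤ m → ∃ α : V k,
    (∀ j, ∃ t : ℤ, (m : ℝ) * α j = t) ∧ (∀ j, |α j| ^ k ≤ C / m) ∧
    ∀ ρ : ℝ, 0 ≤ ρ → ρ ^ k ≤ 1 / (C * m) → ∀ i : ℕ, 0 < i → i < m →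
      ∃ j, ∀ t : ℤ, ρ ≤ |i * α j - t|

/-- A smooth trivialisation of the torus action: `a : N → (S¹)ᵏ` equivariant. -/
structure Trivial (k n : ℕ) (N : Type*) [TopologicalSpace N] [ChartedSpace (V n) N]
    (R : V k → N → N) (a : N → Fin k → ℂ) : Prop where
  smooth : ∀ j, ContMDiff (𝓡 n) 𝓘(ℝ, ℂ) ∞ (fun y => a y j)
  norm : ∀ y j, ‖a y j‖ = 1
  equiv : ∀ (t : V k) y j, a (R t y) j = Complex.exp (2 * Real.pi * Complex.I * (t j : ℝ)) * a y j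

/-- MET: a distance on a closed manifold which is equivalent to the euclidean one in good charts and
for which `C¹` maps are Lipschitz. -/
def S_MET : Prop :=
  ∀ (n : ℕ) (N : Type u) [TopologicalSpace N] [T2Space N] [CompactSpace N]
    [ChartedSpace (V n) N] [IsManifold (𝓡 n) ∞ N],
    ∃ d : N → N → ℝ, (∀ y y', d y y' = 0 ↔ y = y') ∧ (∀ y y', 0 ≤ d y y') ∧
      (∀ y y', d y y' = d y' y) ∧ (∀ y y' y'', d y y'' ≤ d y y' + d y' y'') ∧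
      Continuous (fun p : N × N => d p.1 p.2) ∧
      (∀ (χ : OpenPartialHomeomorph N (V n)) (z : N), GoodChart n N χ z → ∃ L : ℝ, 1 ≤ L ∧
        ∀ y ∈ χ.source, ∀ y' ∈ χ.source, ‖χ y‖ ≤ 1 / 2 → ‖χ y'‖ ≤ 1 / 2 →
          d y y' ≤ L * ‖χ y - χ y'‖ ∧ ‖χ y - χ y'‖ ≤ L * d y y') ∧
      (∀ g : N → ℂ, ContMDiff (𝓡 n) 𝓘(ℝ, ℂ) 1 g → ∃ L : ℝ, ∀ y y', ‖g y - g y'‖ ≤ L * d y y') ∧
      ∀ (k : ℕ) (G : V k × N → N), ContMDiff ((𝓡 k).prod (𝓡 n)) (𝓡 n) 1 G →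
        ∀ K : Set (V k), IsCompact K → ∃ L : ℝ, ∀ γ ∈ K, ∀ y y', d (G (γ, y)) (G (γ, y')) ≤ L * d y y'

/-- CHAIN: closed chains of length about `δ^{-D}` with jumps `O(δ)`. -/
def S_CHAIN : Prop :=
  ∀ (k D n : ℕ) (N : Type u) [TopologicalSpace N] [T2Space N] [CompactSpace N]
    [ChartedSpace (V n) N] [IsManifold (𝓡 n) ∞ N] (r : ℕ∞), 1 ≤ r → 1 ≤ D → D + k = n →
    ∀ (R : V k → N → N), FreeTorus k n N R → ∀ a : N → Fin k → ℂ, Trivial k n N R a →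
    ∀ F : DiffM n N r, (∀ t y, F (R t y) = R t (F y)) → (∀ y, a (F y) = a y) →
    ∀ z : N, ChainRec F z →
    ∃ (A : ℕ) (χs : Fin A → OpenPartialHomeomorph N (V n)) (zs : Fin A → N) (C : ℝ),
      1 ≤ A ∧ (∀ b, GoodChart n N (χs b) (zs b)) ∧ 1 ≤ C ∧
      (∀ b, ∀ y ∈ (χs b).source, ∀ y' ∈ (χs b).source, ‖χs b y‖ ≤ 1 / 2 → ‖χs b y'‖ ≤ 1 / 2 →
        ∀ j, ‖a y j - a y' j‖ ≤ C * ‖χs b y - χs b y'‖) ∧
      ∀ δ : ℝ, 0 < δ → δ ≤ 1 → ∃ (m : ℕ) (c : ℕ → N), 1 ≤ m ∧ m * δ ^ D ≤ C ∧ 1 ≤ C * (m * δ ^ D) ∧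
        c 0 = z ∧ c m = z ∧ (∀ i, a (c i) = a z) ∧
        ∀ i < m, ∀ γ : V k, ∃ b : Fin A, R γ (F (c i)) ∈ (χs b).source ∧
          R γ (c (i + 1)) ∈ (χs b).source ∧ ‖χs b (R γ (c (i + 1)))‖ ≤ 1 / 4 ∧
          ‖χs b (R γ (F (c i))) - χs b (R γ (c (i + 1)))‖ ≤ C * δ

/-- D: every chain recurrent point of `f × id` on `M × 𝕋ᵏ` can be made periodic if
`k > r dim M`. -/
def S_D : Prop :=
  ∀ (k n : ℕ) (N : Type u) [TopologicalSpace N] [T2Space N] [CompactSpace N]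
    [ChartedSpace (V n) N] [IsManifold (𝓡 n) ∞ N] (r : ℕ), 1 ≤ r → k < n → r * (n - k) < k →
    ∀ (R : V k → N → N), FreeTorus k n N R → ∀ a : N → Fin k → ℂ, Trivial k n N R a →
    ∀ F : DiffM n N (r : ℕ∞), (∀ t y, F (R t y) = R t (F y)) → (∀ y, a (F y) = a y) →
    ∀ z : N, ChainRec F z → Closable n N (r : ℕ∞) F z

end Pool.Agent.W564.SC
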