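import Pool.Agent.W564.SC.Defs

/-!
# Project SC, part E: points with exponentially fast returns can be closed
-/

open scoped Manifold ContDiff Topology
open Filter Set Metric

universe u

namespace Pool.Agent.W564.SC

open Pool.Agent.H718R2.G

/-- integer iterates -/
def it {n : ℕ} {N : Type*} [TopologicalSpace N] [ChartedSpace (V n) N] {r : ℕ∞}
    (F : DiffM n N r) (i : ℤ) (y : N) : N :=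
  ((F.toEquiv : Equiv.Perm N) ^ i) y

/-- `g` is differentiable near `x₀` with derivative bounded by `K` and `K`-Lipschitz. -/
structure TameAt (n : ℕ) (K ρ : ℝ) (g : V n → V n) (x₀ : V n) : Prop where
  diff : ∀ x ∈ ball x₀ ρ, DifferentiableAt ℝ g x
  bd : ∀ x ∈ ball x₀ ρ, ‖fderiv ℝ g x‖ ≤ K
  lip : ∀ x ∈ ball x₀ ρ, ∀ x' ∈ ball x₀ ρ, ‖fderiv ℝ g x - fderiv ℝ g x'‖ ≤ K * ‖x - x'‖

/-- STEP: uniform bounds for one map between two good charts. -/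
def S_STEP : Prop :=
  ∀ (n : ℕ) (N : Type u) [TopologicalSpace N] [T2Space N] [CompactSpace N]
    [ChartedSpace (V n) N] [IsManifold (𝓡 n) ∞ N] (r : ℕ∞), 2 ≤ r → ∀ G : DiffM n N r,
    ∀ (χ₁ χ₂ : OpenPartialHomeomorph N (V n)) (z₁ z₂ : N), GoodChart n N χ₁ z₁ →
    GoodChart n N χ₂ z₂ → ∃ K ρ : ℝ, 1 ≤ K ∧ 0 < ρ ∧ ρ ≤ 1 / 8 ∧ ∀ y ∈ χ₁.source, ‖χ₁ y‖ ≤ 1 / 2 →
      G y ∈ χ₂.source → ‖χ₂ (G y)‖ ≤ 1 / 2 →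
      (∀ x ∈ ball (χ₁ y) ρ, x ∈ χ₁.target ∧ G (χ₁.symm x) ∈ χ₂.source ∧
        ‖χ₂ (G (χ₁.symm x))‖ ≤ 3 / 4) ∧
      TameAt n K ρ (χ₂ ∘ G ∘ χ₁.symm) (χ₁ y)

/-- DER: exponential bounds for the first two derivatives of the iterates, in a chart `χ` at `z`, near
base points `y₀` close to `z`. The constant `K` depends only on `F`. -/
def S_DER : Prop :=
  ∀ (n : ℕ) (N : Type u) [TopologicalSpace N] [T2Space N] [CompactSpace N]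
    [ChartedSpace (V n) N] [IsManifold (𝓡 n) ∞ N] (r : ℕ∞), 2 ≤ r → ∀ F : DiffM n N r,
    ∃ K : ℝ, 2 ≤ K ∧ ∀ (χ : OpenPartialHomeomorph N (V n)) (z : N), GoodChart n N χ z →
    ∃ m₀ : ℕ, ∀ m : ℕ, m₀ ≤ m →
      (∀ i : ℤ, |i| ≤ 2 * m → ∀ y ∈ χ.source, ∀ y' ∈ χ.source, ‖χ y‖ ≤ 1 / 4 → ‖χ y'‖ ≤ 1 / 4 →
        ‖χ y - χ y'‖ ≤ K⁻¹ ^ m → it F i y ∈ χ.source → ‖χ (it F i y)‖ ≤ 1 / 4 →
        it F i y' ∈ χ.source ∧ ‖χ (it F i y) - χ (it F i y')‖ ≤ K ^ m * ‖χ y - χ y'‖) ∧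
      ∀ i : ℤ, |i| ≤ 2 * m → ∀ y ∈ χ.source, ‖χ y‖ ≤ 1 / 8 → it F i y ∈ χ.source →
        ‖χ (it F i y)‖ ≤ 1 / 4 → ∀ x ∈ ball (χ y) (K⁻¹ ^ m),
          DifferentiableAt ℝ (χ ∘ it F i ∘ χ.symm) x ∧
          ‖fderiv ℝ (χ ∘ it F i ∘ χ.symm) x‖ ≤ K ^ m ∧
          ‖fderiv ℝ (χ ∘ it F i ∘ χ.symm) x - fderiv ℝ (χ ∘ it F i ∘ χ.symm) (χ y)‖ ≤
            K ^ m * ‖x - χ y‖

/-- Approximate cocycles: `v i` is the displacement of `F^i` at the base point, `A i` its derivative. -/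
structure AC (D m : ℕ) (Λ : ℝ) (P : ℤ → Prop) (v : ℤ → V D) (A : ℤ → V D →L[ℝ] V D) : Prop where
  zero : P 0 ∧ v 0 = 0 ∧ A 0 = ContinuousLinearMap.id ℝ (V D)
  bd : ∀ i : ℤ, |i| ≤ 2 * m → P i → ‖A i‖ ≤ Λ
  add : ∀ i j : ℤ, |i| ≤ 2 * m → |j| ≤ 2 * m → |i + j| ≤ 2 * m → P j → ‖v j‖ ≤ Λ⁻¹ ^ 2 →
    ((P i ∧ ‖v i‖ ≤ 1 / 8) ∨ (P (i + j) ∧ ‖v (i + j)‖ ≤ 1 / 8)) →
    P i ∧ P (i + j) ∧ ‖v (i + j) - v i - A i (v j)‖ ≤ Λ * ‖v j‖ ^ 2 ∧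
      ‖A (i + j) - (A i).comp (A j)‖ ≤ Λ ^ 2 * ‖v j‖

/-- LB: at a return time `p` for which there is a later return `q` with a much smaller displacement,
`A p` moves `v p` by a definite amount. -/
def S_LB : Prop :=
  ∀ (D m : ℕ) (Λ : ℝ) (P : ℤ → Prop) (v : ℤ → V D) (A : ℤ → V D →L[ℝ] V D), AC D m Λ P v A →
    16 ≤ Λ → (m : ℝ) ≤ Λ → ∀ p q : ℤ, 0 < p → p < q → q ≤ m → P p → P q → 0 < ‖v p‖ →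
    ‖v p‖ ≤ Λ⁻¹ ^ 40 → ‖v q‖ ≤ Λ⁻¹ ^ 40 * ‖v p‖ → Λ⁻¹ ^ 30 * ‖v p‖ ≤ ‖A p (v p) - v p‖

/-- IND: linear algebra -/
def S_IND : Prop :=
  ∀ (D : ℕ) (Λ τ : ℝ) (x : Fin (D + 1) → V D) (B : Fin (D + 1) → V D →L[ℝ] V D),
    2 * (D + 1) ≤ Λ → 2 ≤ Λ → 0 ≤ τ → (∀ i, ‖x i‖ = 1) → (∀ i, ‖B i‖ ≤ Λ ^ 2) →
    (∀ i j, i < j → ‖B i (x j)‖ ≤ τ) → (∀ i, Λ⁻¹ ^ 31 ≤ ‖B i (x i)‖) →
    Λ⁻¹ ^ (40 * (D + 1)) ≤ τ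

/-- CHN: a chain of `D + 2` return times with rapidly increasing small displacements is
impossible. -/
def S_CHN : Prop :=
  ∀ (D m : ℕ) (Λ : ℝ) (P : ℤ → Prop) (v : ℤ → V D) (A : ℤ → V D →L[ℝ] V D), AC D m Λ P v A →
    16 ≤ Λ → 2 * (D + 1) ≤ Λ → (m : ℝ) ≤ Λ → ∀ p : Fin (D + 2) → ℤ,
    (∀ i, 0 < p i ∧ p i ≤ m ∧ P (p i)) → (∀ i j, i < j → p j < p i) → 0 < ‖v (p 0)‖ →
    (∀ i j, i < j → ‖v (p i)‖ ≤ Λ⁻¹ ^ (40 * (D + 1) + 5) * ‖v (p j)‖) →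
    (∀ i, ‖v (p i)‖ ≤ Λ⁻¹ ^ (40 * (D + 1) + 5)) → False

/-- ABS: existence of a closing time. -/
def S_ABS : Prop :=
  ∀ D k : ℕ, 1 ≤ k → ∃ a : ℕ, ∀ κ : ℝ, 0 < κ → κ ≤ 1 / 16 → ∃ Λ₀ : ℝ, ∀ (m : ℕ) (Λ : ℝ) (P : ℤ → Prop)
    (v : ℤ → V D) (A : ℤ → V D →L[ℝ] V D), AC D m Λ P v A → Λ₀ ≤ Λ → (m : ℝ) ≤ Λ → 1 ≤ m →
    P m → ‖v m‖ ≤ Λ⁻¹ ^ a →
    ∃ (q : ℤ) (ρ : ℝ), 1 ≤ q ∧ q ≤ m ∧ P q ∧ 0 < ρ ∧ ρ < κ ∧ ‖v q‖ < κ * ρ ^ k ∧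
      ∀ i : ℤ, 0 < i → i < q → P i → 2 * ρ ≤ ‖v i‖

/-- ACM: the approximate cocycle of a diffeomorphism at a base point `y` near `z`. -/
def S_ACM : Prop :=
  ∀ (n : ℕ) (N : Type u) [TopologicalSpace N] [T2Space N] [CompactSpace N]
    [ChartedSpace (V n) N] [IsManifold (𝓡 n) ∞ N] (r : ℕ∞), 2 ≤ r → ∀ F : DiffM n N r,
    ∃ K : ℝ, 2 ≤ K ∧ ∀ (χ : OpenPartialHomeomorph N (V n)) (z : N), GoodChart n N χ z →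
    ∃ m₀ : ℕ, ∀ m : ℕ, m₀ ≤ m → ∀ y ∈ χ.source, ‖χ y‖ ≤ 1 / 16 →
      ∃ A : ℤ → V n →L[ℝ] V n,
        AC n m (K ^ m) (fun i => it F i y ∈ χ.source ∧ ‖χ (it F i y)‖ ≤ 1 / 4)
          (fun i => χ (it F i y) - χ y) A

/-- E: if `F` cannot be closed at `z` then near `z` all returns are at least exponentially slow,
with a rate depending only on `F` and the order. -/
def S_E : Prop :=
  ∀ (n : ℕ) (N : Type u) [TopologicalSpace N] [T2Space N] [CompactSpace N]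
    [ChartedSpace (V n) N] [IsManifold (𝓡 n) ∞ N] (r : ℕ∞), 2 ≤ r → ∀ F : DiffM n N r,
    ∃ C : ℕ → ℝ, Monotone C ∧ ∀ (z : N) (χ : OpenPartialHomeomorph N (V n)), GoodChart n N χ z →
      Closable n N r F z ∨
      ∃ k : ℕ, (k : ℕ∞) ≤ r ∧ ∃ W ∈ 𝓝 z, W ⊆ χ.source ∧ ∃ c : ℝ, 0 < c ∧ ∀ y ∈ W, ∀ m : ℕ,
        1 ≤ m → F^[m] y ∈ χ.source → c * Real.exp (-(C k * m)) ≤ ‖χ (F^[m] y) - χ y‖

end Pool.Agent.W564.SC
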