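import Pool.Agent.W564.SC.Lib
import Pool.Agent.W816.SC.Flex
import Pool.Agent.W216.SC.A
import Pool.Agent.W366.SC.EX1
import Pool.Agent.W806.SC.EX2

universe u v w

namespace Pool.Agent.W564.SC

theorem t_A : S_A.{u, v, w} := Pool.Agent.W216.SC.a t_CL Pool.Agent.W699.SC.gc Pool.Agent.W816.SC.flex

theorem t_EX2 : S_EX2 := Pool.Agent.W806.SC.ex2 Pool.Agent.W366.SC.ex1

end Pool.Agent.W564.SC
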