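import Pool.Agent.W564.SC.Lib
import Pool.Agent.W486.SC.AD
import Pool.Agent.W315.SC.TF
import Pool.Agent.W177.SC.CN1
import Pool.Agent.W352.SC.CN2
import Pool.Agent.W135.SC.Count
import Pool.Agent.W298.SC.PAIR
import Pool.Agent.W298.SC.RET
import Pool.Agent.W298.SC.BP
import Pool.Agent.W554.SC.B

universe u v w

namespace Pool.Agent.W564.SC

theorem t_B : S_B.{u} :=
  Pool.Agent.W554.SC.b t_CL Pool.Agent.W486.SC.ad
    (Pool.Agent.W135.SC.Count.count Pool.Agent.W177.SC.cn1 Pool.Agent.W352.SC.cn2)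
    Pool.Agent.W298.SC.pair Pool.Agent.W298.SC.ret
    (Pool.Agent.W298.SC.bp t_NBHD Pool.Agent.W699.SC.gc Pool.Agent.W315.SC.tf)
    Pool.Agent.W315.SC.tf

end Pool.Agent.W564.SC
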