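import Pool.Agent.W564.SC.Lib
import Pool.Agent.W320.SC.CF
import Pool.Agent.W335.SCM.Moeb
import Pool.Agent.W54.SC.C

universe u v w

namespace Pool.Agent.W564.SC

theorem t_C : S_C.{u} :=
  Pool.Agent.W54.SC.c Pool.Agent.W320.SC.cf Pool.Agent.W335.SCM.moeb t_CL Pool.Agent.W699.SC.gc

end Pool.Agent.W564.SC
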