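import Pool.Agent.W564.SC.Lib
import Pool.Agent.W486.SC.AD
import Pool.Agent.W315.SC.TF
import Pool.Agent.W320.SC.NBM
import Pool.Agent.W352.SC.MB
import Pool.Agent.W397.SC.ALPHA
import Pool.Agent.W756.SC.Met
import Pool.Agent.W318.SC.Chain
import Pool.Agent.W696.SC.D

universe u v w

namespace Pool.Agent.W564.SC

theorem t_D : S_D.{u} :=
  Pool.Agent.W696.SC.d (Pool.Agent.W320.SC.nbm t_LOC)
    (Pool.Agent.W352.SC.mb Pool.Agent.W271.SC.bump Pool.Agent.W428.SC.push)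
    Pool.Agent.W397.SC.alpha
    (Pool.Agent.W318.SC.chain Pool.Agent.W486.SC.ad Pool.Agent.W756.SC.met)
    Pool.Agent.W315.SC.tf

end Pool.Agent.W564.SC
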