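import Pool.Agent.W564.SC.LibD

/-!
# The `C^r` closing lemma for chain recurrent points of `f × id` on `M × 𝕋ᵏ`, `k > r dim M`

`DiffM n N r` is `Diff^r(N)` and `strongTop n N r` its strong (Whitney) `C^r` topology (the usual one,
`N` being compact), `IsPer G z`: `z` is periodic for `G` (`Pool/Agent/H718R2/G0.lean`).
`FreeTorus`: `Pool/Agent/W564/SC/Defs.lean`; `Trivial`, `ChainRec`: `Pool/Agent/W564/SC/Defs2.lean`.

Project SC: helpers 564 (host), 54, 74, 131, 135, 177, 216, 271, 298, 315, 318, 320, 335, 352, 366, 397,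
428, 486, 554, 597, 683, 696, 699, 756, 782, 806, 816, 917, 923.
-/

set_option autoImplicit false

open scoped Manifold ContDiff Topology

namespace Pool.Agent.W564.SC.StableChainClosing

open Pool.Agent.H718R2.G Pool.Agent.W564.SC

/-- Let `N` be a closed manifold of dimension `n` with a free smooth action `R` of `𝕋ᵏ`, `k < n`, and a
smooth equivariant map `a : N → (S¹)ᵏ`, so that `N = M × 𝕋ᵏ` with `dim M = n - k`. Let `F ∈ Diff^r(N)`
commute with `R` and preserve `a`, that is `F = f × id` with `f` an ARBITRARY `C^r` diffeomorphism of `M`.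
If `k > r (n - k)` then for every chain recurrent point `z` of `F` every `C^r` neighbourhood of `F`
contains some `G` for which `z` is periodic. -/
theorem result {k n : ℕ} {N : Type*} [TopologicalSpace N] [T2Space N] [CompactSpace N]
    [ChartedSpace (V n) N] [IsManifold (𝓡 n) ∞ N] (R : V k → N → N) (hR : FreeTorus k n N R)
    (a : N → Fin k → ℂ) (ha : Trivial k n N R a) (r : ℕ) (hr : 1 ≤ r) (hkn : k < n)
    (hk : r * (n - k) < k) (F : DiffM n N (r : ℕ∞)) (hF : ∀ t y, F (R t y) = R t (F y))
    (haF : ∀ y, a (F y) = a y) (z : N) (hz : ChainRec F z) :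
    ∀ U : Set (DiffM n N (r : ℕ∞)), IsOpen[strongTop n N (r : ℕ∞)] U → F ∈ U →
      ∃ G ∈ U, IsPer G z :=
  t_D k n N r hr hkn hk R hR a ha F hF haF z hz

end Pool.Agent.W564.SC.StableChainClosing
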